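import Pool.Agent.Helper55.CP.Defs

/-! Project CP: points of every regular cofinality below `ms` in a club, with small blocks, and
the club of good levels of a chain. -/

set_option autoImplicit false

open Cardinal Ordinal Set Filter Helper23.Pcf

universe u

namespace Helper19.CP

/-- A limit point of the club `E`, of any regular cofinality `ρ < ms`, with a cofinal block of
at most `ρ` points of `E` below it. -/
theorem point_exists {ρ ms : Cardinal.{u}} (hρ : ρ.IsRegular)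
    (hms : ms.IsRegular) (hlt : ρ < ms) {E : Set Ordinal.{u}} (hE : ClubIn E ms.ord) :
    ∃ i ∈ E, i < ms.ord ∧ i.cof = ρ ∧ ∃ K : Set Ordinal.{u}, K ⊆ E ∧ K ⊆ Iio i ∧ UnbIn K i ∧
      #K ≤ Cardinal.lift.{u+1} ρ := by
  classical
  have hnext : ∀ y, ∃ z, y < ms.ord → z ∈ E ∧ y < z ∧ z < ms.ord := by
    intro y
    by_cases hy : y < ms.ord
    · obtain ⟨z, h1, h2, h3⟩ := hE.unb y hy
      exact ⟨z, fun _ => ⟨h1, h2, h3⟩⟩
    · exact ⟨0, fun h => absurd h hy⟩
  choose nx hnx using hnext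
  have hmlim : Order.IsSuccLimit ms.ord := Cardinal.isSuccLimit_ord hms.1
  have hrlim : Order.IsSuccLimit ρ.ord := Cardinal.isSuccLimit_ord hρ.1
  obtain ⟨ξ, hξ⟩ := exists_cont (fun j ζ => nx (ζ j))
  have hbound : ∀ i < ms.ord, ξ i < ms.ord := by
    refine cont_bound hξ hmlim ?_ ?_
    · intro i _ ζ hζ
      exact (hnx _ (hζ i)).2.2
    · intro i hi
      rw [hms.cof_ord]
      exact Cardinal.lt_ord.1 hi
  have hstep : ∀ j i, j < i → nx (ξ j) ≤ ξ i := by
    intro j i hji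
    have := cont_step hξ hji
    simpa using this
  have hρm : ρ.ord < ms.ord := Cardinal.ord_lt_ord.2 hlt
  have hK1 : (fun j => nx (ξ j)) '' Iio ρ.ord ⊆ E := by
    rintro _ ⟨j, hj, rfl⟩
    exact (hnx _ (hbound j (lt_trans hj hρm))).1
  have hK2 : (fun j => nx (ξ j)) '' Iio ρ.ord ⊆ Iio (ξ ρ.ord) := by
    rintro _ ⟨j, hj, rfl⟩
    exact lt_of_le_of_lt (hstep j _ (Order.lt_succ j)) (cont_lt hξ (hrlim.succ_lt hj))
  have hK3 : UnbIn ((fun j => nx (ξ j)) '' Iio ρ.ord) (ξ ρ.ord) := by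
    intro x hx
    obtain ⟨j, hj, hxj⟩ := cont_limit hξ hrlim.isSuccPrelimit hx
    exact ⟨nx (ξ j), ⟨j, hj, rfl⟩, hxj.trans (hnx _ (hbound j (hj.trans hρm))).2.1,
      hK2 ⟨j, hj, rfl⟩⟩
  refine ⟨ξ ρ.ord, ?_, hbound _ hρm, ?_, _, hK1, hK2, hK3, ?_⟩
  · exact hE.cl _ (hbound _ hρm) (lt_of_le_of_lt zero_le (cont_lt hξ hrlim.bot_lt))
      (hK3.mono hK1)
  · rw [cont_cof hξ hrlim, hρ.cof_ord]
  · refine Cardinal.mk_image_le.trans ?_
    rw [Cardinal.mk_Iio_ordinal, Cardinal.card_ord]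

open Helper55.CP in
/-- The club of good levels of a chain: if the closures of the last level together with `U x` do not
reach beyond the last level below `o x`, the same is true for a club of levels. -/
theorem club_good {J : Type u} {G : J → List Ordinal.{u} → Ordinal.{u}} {μ : Cardinal.{u}}
    (hμ : ℵ₀ ≤ μ) (hJ : #J ≤ μ) {N : Ordinal.{u} → Set Ordinal.{u}}
    (mono : ∀ η ε, η ≤ ε → N η ⊆ N ε)
    (lim : ∀ ε, Order.IsSuccLimit ε → ∀ z ∈ N ε, ∃ η < ε, z ∈ N η)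
    (card : ∀ ε < (Order.succ μ).ord, #(N ε) ≤ Cardinal.lift.{u+1} μ)
    {A : Type u} (hA : #A ≤ μ) (o : A → Ordinal.{u}) (U : A → Set Ordinal.{u})
    (hU : ∀ x, #(U x) ≤ Cardinal.lift.{u+1} μ)
    (h : ∀ x, ∀ z ∈ Clo G (N (Order.succ μ).ord ∪ U x), z < o x →
      z < chi (N (Order.succ μ).ord) (o x)) :
    ClubIn {i | ∀ x, ∀ z ∈ Clo G (N i ∪ U x), z < o x → z < chi (N i) (o x)}
      (Order.succ μ).ord := by
  classical
  have hreg : (Order.succ μ).IsRegular := Cardinal.isRegular_succ hμ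
  have hlim : Order.IsSuccLimit (Order.succ μ).ord := Cardinal.isSuccLimit_ord hreg.1
  have hcof : (Order.succ μ).ord.cof = Order.succ μ := hreg.cof_ord
  have hcof0 : ℵ₀ < (Order.succ μ).ord.cof := by
    rw [hcof]; exact lt_of_le_of_lt hμ (Order.lt_succ μ)
  have hμ' : ℵ₀ ≤ Cardinal.lift.{u+1} μ := Cardinal.aleph0_le_lift.2 hμ
  -- one step
  have hf : ∀ (x : A) (y z : Ordinal.{u}), ∃ η, y < (Order.succ μ).ord →
      z ∈ Clo G (N y ∪ U x) → z < o x → η < (Order.succ μ).ord ∧ z < chi (N η) (o x) := by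
    intro x y z
    by_cases hy : y < (Order.succ μ).ord ∧ z ∈ Clo G (N y ∪ U x) ∧ z < o x
    · have h1 := h x z (Clo_mono (union_subset_union_left _ (mono _ _ hy.1.le)) hy.2.1) hy.2.2
      obtain ⟨w, hw, hwo, hzw⟩ := exists_of_lt_chi h1
      obtain ⟨η, hη, hwη⟩ := lim _ hlim w hw
      exact ⟨η, fun _ _ _ => ⟨hη, lt_of_le_of_lt hzw (lt_chi hwη hwo)⟩⟩
    · refine ⟨0, fun h1 h2 h3 => absurd ⟨h1, h2, h3⟩ hy⟩
  choose f hf using hf
  have hg : ∀ y, ∃ g, y < (Order.succ μ).ord → g < (Order.succ μ).ord ∧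
      ∀ x, ∀ z ∈ Clo G (N y ∪ U x), z < o x → z < chi (N g) (o x) := by
    intro y
    by_cases hy : y < (Order.succ μ).ord
    · let V : Set Ordinal.{u} := ⋃ x, (f x y) '' Clo G (N y ∪ U x)
      have hV : #V ≤ Cardinal.lift.{u+1} μ := by
        refine mk_iUnion_small' hμ _ hA fun x => Cardinal.mk_image_le.trans ?_
        exact mk_Clo_le hμ hJ ((Cardinal.mk_union_le _ _).trans
          (Cardinal.add_le_of_le hμ' (card y hy) (hU x)))
      have hVlt : #V < Cardinal.lift.{u+1} (Order.succ μ) :=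
        lt_of_le_of_lt hV (Cardinal.lift_lt.2 (Order.lt_succ μ))
      refine ⟨chi V (Order.succ μ).ord, fun _ => ⟨chi_lt hreg hVlt, ?_⟩⟩
      intro x z hz hzo
      obtain ⟨h1, h2⟩ := hf x y z hy hz hzo
      have hVm : f x y z ∈ V := mem_iUnion.2 ⟨x, z, hz, rfl⟩
      exact lt_of_lt_of_le h2 (chi_mono (mono _ _ (lt_chi hVm h1).le))
    · exact ⟨0, fun h => absurd h hy⟩
  choose g hg using hg
  refine ⟨?_, ?_⟩
  · intro x0 hx0
    obtain ⟨z, hz, hxz, hz'⟩ := exists_iter hcof0 (fun y => Order.succ (max y (g y)))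
      (fun y hy => ⟨lt_of_le_of_lt (le_max_left _ _) (Order.lt_succ _),
        hlim.succ_lt (max_lt hy (hg y hy).1)⟩) x0 hx0
    have hzl : Order.IsSuccLimit z := by
      refine UnbIn.isSuccLimit (C := Set.univ) (fun t ht => ?_) (lt_of_le_of_lt zero_le hxz)
      obtain ⟨y, h1, h2, _⟩ := hz' t ht
      exact ⟨y, trivial, h2, h1⟩
    refine ⟨z, ?_, hxz, hz⟩
    intro x w hw hwo
    have hne : Nonempty (Iio z) := ⟨⟨x0, hxz⟩⟩
    have h1 : N z ∪ U x ⊆ ⋃ i : Iio z, (N i.1 ∪ U x) := by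
      rintro t (ht | ht)
      · obtain ⟨η, hη, htη⟩ := lim z hzl t ht
        exact mem_iUnion.2 ⟨⟨η, hη⟩, Or.inl htη⟩
      · exact mem_iUnion.2 ⟨⟨x0, hxz⟩, Or.inr ht⟩
    have hdir : Directed (· ⊆ ·) (fun i : Iio z => N i.1 ∪ U x) := by
      intro i j
      refine ⟨max i j, union_subset_union_left _ (mono _ _ (by exact_mod_cast le_max_left i j)),
        union_subset_union_left _ (mono _ _ (by exact_mod_cast le_max_right i j))⟩
    obtain ⟨i, hi⟩ := Clo_directed (G := G) _ hdir (Clo_mono h1 hw)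
    obtain ⟨y, hy1, hy2, hy3⟩ := hz' i.1 i.2
    have h2 := (hg y (hy1.trans hz)).2 x w
      (Clo_mono (union_subset_union_left _ (mono _ _ hy2.le)) hi) hwo
    refine lt_of_lt_of_le h2 (chi_mono (mono _ _ ?_))
    exact ((le_max_right y (g y)).trans (Order.le_succ _)).trans hy3.le
  · intro δ hδ hδ0 hu x w hw hwo
    have hδl := hu.isSuccLimit hδ0
    have hne : Nonempty (Iio δ) := ⟨⟨0, hδ0⟩⟩
    have h1 : N δ ∪ U x ⊆ ⋃ i : Iio δ, (N i.1 ∪ U x) := by
      rintro t (ht | ht)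
      · obtain ⟨η, hη, htη⟩ := lim δ hδl t ht
        exact mem_iUnion.2 ⟨⟨η, hη⟩, Or.inl htη⟩
      · exact mem_iUnion.2 ⟨⟨0, hδ0⟩, Or.inr ht⟩
    have hdir : Directed (· ⊆ ·) (fun i : Iio δ => N i.1 ∪ U x) := by
      intro i j
      refine ⟨max i j, union_subset_union_left _ (mono _ _ (by exact_mod_cast le_max_left i j)),
        union_subset_union_left _ (mono _ _ (by exact_mod_cast le_max_right i j))⟩
    obtain ⟨i, hi⟩ := Clo_directed (G := G) _ hdir (Clo_mono h1 hw)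
    obtain ⟨y, hy, hiy, hyδ⟩ := hu i.1 i.2
    refine lt_of_lt_of_le (hy x w ?_ hwo) (chi_mono (mono _ _ hyδ.le))
    exact Clo_mono (union_subset_union_left _ (mono _ _ hiy.le)) hi

end Helper19.CP
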