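import Pool.Agent.Helper19.CP.Point

/-! Project CP: stationary sets below the limits of a chain. -/

set_option autoImplicit false

open Cardinal Ordinal Set Filter Helper23.Pcf

universe u

namespace Helper19.CP

/-- Pulling a stationary set back along an increasing continuous cofinal sequence. -/
theorem stat_pull {o δ : Ordinal.{u}} (ho : ℵ₀ < o.cof) (v : Ordinal.{u} → Ordinal.{u})
    (hv : ∀ i j, i < j → j < o → v i < v j)
    (cv : ∀ i < o, Order.IsSuccLimit i → ∀ x < v i, ∃ j < i, x < v j)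
    (hvδ : ∀ i < o, v i < δ) (hcof : ∀ x < δ, ∃ j < o, x < v j)
    {S C : Set Ordinal.{u}} (hS : StatIn S δ) (hC : ClubIn C o) :
    ∃ i ∈ C, i < o ∧ v i ∈ S := by
  classical
  have hlim : Order.IsSuccLimit o := Ordinal.one_lt_cof_iff.1 (one_lt_aleph0.trans ho)
  have hmono : ∀ i j, i ≤ j → j < o → v i ≤ v j := by
    intro i j hij hj
    rcases hij.eq_or_lt with h | h
    · rw [h]
    · exact (hv i j h hj).le
  have hD : ClubIn {y | ∃ i ∈ C, i < o ∧ v i = y} δ := by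
    refine ⟨?_, ?_⟩
    · intro x hx
      obtain ⟨j, hj, hxj⟩ := hcof x hx
      obtain ⟨i, hiC, hji, hio⟩ := hC.unb j hj
      exact ⟨v i, ⟨i, hiC, hio, rfl⟩, hxj.trans (hv j i hji hio), hvδ i hio⟩
    · intro η hη hη0 hu
      -- the least strict upper bound of the indices
      let W : Set Ordinal.{u} := {t | ∀ i ∈ C, i < o → v i < η → i < t}
      obtain ⟨j0, hj0, hηj0⟩ := hcof η hη
      have hj0W : j0 ∈ W := by
        intro i _ hio hi
        by_contra hcon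
        exact absurd (hi.trans hηj0) (not_lt.2 (hmono _ _ (not_lt.1 hcon) hio))
      have hmem : sInf W ∈ W := csInf_mem ⟨j0, hj0W⟩
      have hlt : sInf W < o := lt_of_le_of_lt (csInf_le' hj0W) hj0
      have hbelow : ∀ t < sInf W, ∃ i ∈ C, i < o ∧ v i < η ∧ t ≤ i := by
        intro t ht
        have h1 : t ∉ W := fun h => absurd (csInf_le' h) (not_le.2 ht)
        simp only [W, mem_setOf_eq, not_forall] at h1
        obtain ⟨i, h2, h3, h4, h5⟩ := h1
        exact ⟨i, h2, h3, h4, not_lt.1 h5⟩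
      have hnext : ∀ i ∈ C, i < o → v i < η → ∃ i' ∈ C, i < i' ∧ i' < o ∧ v i' < η := by
        intro i _ hio hi
        obtain ⟨_, ⟨i', h1, h2, rfl⟩, h3, h4⟩ := hu (v i) hi
        refine ⟨i', h1, ?_, h2, h4⟩
        by_contra hcon
        exact absurd h3 (not_lt.2 (hmono _ _ (not_lt.1 hcon) hio))
      have hunb : UnbIn C (sInf W) := by
        intro t ht
        obtain ⟨i, h1, h2, h3, h4⟩ := hbelow t ht
        obtain ⟨i', h5, h6, h7, h8⟩ := hnext i h1 h2 h3
        exact ⟨i', h5, lt_of_le_of_lt h4 h6, hmem i' h5 h7 h8⟩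
      have hpos : 0 < sInf W := by
        obtain ⟨_, ⟨i, h1, h2, rfl⟩, _, h4⟩ := hu 0 hη0
        exact lt_of_le_of_lt zero_le (hmem i h1 h2 h4)
      have hWl : Order.IsSuccLimit (sInf W) := hunb.isSuccLimit hpos
      refine ⟨sInf W, hC.cl _ hlt hpos hunb, hlt, le_antisymm ?_ ?_⟩
      · by_contra hcon
        obtain ⟨j, hj, hηj⟩ := cv _ hlt hWl η (not_le.1 hcon)
        obtain ⟨i, _, h2, h3, h4⟩ := hbelow j hj
        exact absurd (h3.trans hηj) (not_lt.2 (hmono _ _ h4 h2))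
      · refine le_of_forall_lt fun x hx => ?_
        obtain ⟨_, ⟨i, h1, h2, rfl⟩, h3, h4⟩ := hu x hx
        exact h3.trans (hv i _ (hmem i h1 h2 h4) hlt)
  obtain ⟨y, hyS, ⟨i, hiC, hio, rfl⟩, _⟩ := hS _ hD
  exact ⟨i, hiC, hio, hyS⟩

/-- The points of a regular cofinality `ρ < cf δ` are stationary in `δ`. -/
theorem stat_cof {δ : Ordinal.{u}} {ρ : Cardinal.{u}} (hρ : ρ.IsRegular) (h : ρ < δ.cof) :
    StatIn {y : Ordinal.{u} | y.cof = ρ} δ := by
  have hδ0 : ℵ₀ < δ.cof := lt_of_le_of_lt hρ.1 h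
  have hδ : Order.IsSuccLimit δ := Ordinal.one_lt_cof_iff.1 (one_lt_aleph0.trans hδ0)
  obtain ⟨Φ, ξ, hξ, hξδ⟩ := exists_cont_cofinal hδ
  have hreg : δ.cof.IsRegular := Cardinal.isRegular_cof hδ
  intro C hC
  have ho : ℵ₀ < δ.cof.ord.cof := by rw [hreg.cof_ord]; exact hδ0
  have hE : ClubIn {i | ξ i ∈ C} δ.cof.ord := club_preimage hξ ho (by rw [hξδ]; exact hC)
  obtain ⟨i, hiE, hi, hicof, _⟩ := point_exists hρ hreg h hE
  have hil : Order.IsSuccLimit i := by
    rw [← Ordinal.one_lt_cof_iff, hicof]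
    exact one_lt_aleph0.trans_le hρ.1
  refine ⟨ξ i, ?_, hiE, ?_⟩
  · rw [mem_setOf_eq, cont_cof hξ hil, hicof]
  · have := cont_lt hξ hi
    rwa [hξδ] at this

/-- A cofinal block of a set which is unbounded in `i`, of size at most `|i|`. -/
theorem block_exists {i : Ordinal.{u}} {E : Set Ordinal.{u}} (hE : UnbIn E i)
    {μ : Cardinal.{u}} (hi : i.card ≤ μ) : E ∩ Iio i ⊆ E ∧ E ∩ Iio i ⊆ Iio i ∧
      UnbIn (E ∩ Iio i) i ∧ #(E ∩ Iio i : Set Ordinal.{u}) ≤ Cardinal.lift.{u+1} μ := by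
  refine ⟨inter_subset_left, inter_subset_right, ?_, ?_⟩
  · intro x hx
    obtain ⟨y, h1, h2, h3⟩ := hE x hx
    exact ⟨y, ⟨h1, h3⟩, h2, h3⟩
  · refine (Cardinal.mk_le_mk_of_subset inter_subset_right).trans ?_
    rw [Cardinal.mk_Iio_ordinal]
    exact Cardinal.lift_le.2 hi

end Helper19.CP
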