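import Pool.Agent.Helper85.CP.End
import Pool.Agent.Helper19.CP.Stat

/-! Project CP: every sequence of stationary sets below the points of the infinite set is mutually
stationary. -/

set_option autoImplicit false

open Cardinal Ordinal Set Filter Helper23.Pcf Helper55.CP

universe u

namespace Helper19.CP

/-- limit points of a club form a club -/
theorem club_acc {o : Ordinal.{u}} (ho : ℵ₀ < o.cof) {E : Set Ordinal.{u}} (hE : ClubIn E o) :
    ClubIn {i | 0 < i ∧ UnbIn E i} o := by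
  have hnext : ∀ y, ∃ z, y < o → z ∈ E ∧ y < z ∧ z < o := by
    intro y
    by_cases hy : y < o
    · obtain ⟨z, h1, h2, h3⟩ := hE.unb y hy
      exact ⟨z, fun _ => ⟨h1, h2, h3⟩⟩
    · exact ⟨0, fun h => absurd h hy⟩
  choose nx hnx using hnext
  refine ⟨?_, ?_⟩
  · intro x hx
    obtain ⟨z, hz, hxz, hz'⟩ := exists_iter ho nx (fun y hy => (hnx y hy).2) x hx
    refine ⟨z, ⟨lt_of_le_of_lt zero_le hxz, ?_⟩, hxz, hz⟩
    intro w hw
    obtain ⟨y, h1, h2, h3⟩ := hz' w hw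
    have h4 := hnx y (h1.trans hz)
    exact ⟨nx y, h4.1, h2.trans h4.2.1, h3⟩
  · intro δ _ hδ0 hu
    refine ⟨hδ0, fun w hw => ?_⟩
    obtain ⟨i, hi, hwi, hiδ⟩ := hu w hw
    obtain ⟨y, h1, h2, h3⟩ := hi.2 w hwi
    exact ⟨y, h1, h2, h3.trans hiδ⟩

/-- a small cofinal block -/
theorem small_block {i : Ordinal.{u}} {E : Set Ordinal.{u}} (hE : UnbIn E i)
    (hi : Order.IsSuccLimit i) : ∃ K : Set Ordinal.{u}, K ⊆ E ∧ K ⊆ Iio i ∧ UnbIn K i ∧
      #K ≤ Cardinal.lift.{u+1} i.cof := by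
  classical
  obtain ⟨Φ, ξ, hξ, hξi⟩ := exists_cont_cofinal hi
  have hnext : ∀ y, ∃ z, y < i → z ∈ E ∧ y < z ∧ z < i := by
    intro y
    by_cases hy : y < i
    · obtain ⟨z, h1, h2, h3⟩ := hE y hy
      exact ⟨z, fun _ => ⟨h1, h2, h3⟩⟩
    · exact ⟨0, fun h => absurd h hy⟩
  choose nx hnx using hnext
  have hinf : ℵ₀ ≤ i.cof := Ordinal.aleph0_le_cof_iff.2 (Ordinal.one_lt_cof_iff.2 hi)
  have hlim : Order.IsSuccLimit i.cof.ord := Cardinal.isSuccLimit_ord hinf
  have hb : ∀ j < i.cof.ord, ξ j < i := fun j hj => by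
    have := cont_lt hξ hj
    rwa [hξi] at this
  refine ⟨(fun j => nx (ξ j)) '' Iio i.cof.ord, ?_, ?_, ?_, ?_⟩
  · rintro _ ⟨j, hj, rfl⟩
    exact (hnx _ (hb j hj)).1
  · rintro _ ⟨j, hj, rfl⟩
    exact (hnx _ (hb j hj)).2.2
  · intro x hx
    rw [← hξi] at hx
    obtain ⟨j, hj, hxj⟩ := cont_limit hξ hlim.isSuccPrelimit hx
    exact ⟨nx (ξ j), ⟨j, hj, rfl⟩, hxj.trans (hnx _ (hb j hj)).2.1, (hnx _ (hb j hj)).2.2⟩
  · refine Cardinal.mk_image_le.trans ?_
    rw [Cardinal.mk_Iio_ordinal, Cardinal.card_ord]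

open Helper85.CP in
/-- every sequence of stationary sets of the `δ x` is mutually stationary -/
theorem stationary_patterns (T : Data.{u}) (H : Theta T) {JF : Type u} (hJF : #JF ≤ T.μ)
    (F : JF → List Ordinal.{u} → Ordinal.{u}) {ms : Cardinal.{u}} (hms : ms.IsRegular)
    (hκms : Order.succ T.κ < ms) (hmsμ : ms ≤ T.μ) :
    ∃ A : Set T.P, A ⊆ H.a ∧ A.Infinite ∧ ∃ δ : T.P → Ordinal.{u},
      (∀ x, δ x < (T.c x).ord ∧ (δ x).cof = ms) ∧
      ∀ St : T.P → Set Ordinal.{u}, (∀ x ∈ A, StatIn (St x) (δ x)) →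
        ∃ (M : Set Ordinal.{u}) (g : T.P → Ordinal.{u}), ClosedUnder F M ∧
          (∀ ν : Cardinal.{u}, ℵ₀ ≤ ν → #JF ≤ ν → (∀ x ∈ A, (g x).cof ≤ ν) →
            #M ≤ Cardinal.lift.{u+1} ν) ∧
          ∀ x ∈ A, g x ∈ St x ∧ g x < δ x ∧ (∀ z ∈ M, z < (T.c x).ord → z < g x) ∧
            ∀ y < g x, ∃ z ∈ M, y < z ∧ z < g x := by
  classical
  have hκms' : T.κ < ms := (Order.lt_succ _).trans hκms
  have hms0 : ℵ₀ < ms := T.hκ.trans_lt hκms'
  have hμ0 : ℵ₀ ≤ T.μ := T.hκ.trans T.hκμ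
  have hcofms : ℵ₀ < ms.ord.cof := by rw [hms.cof_ord]; exact hms0
  have hlim : Order.IsSuccLimit ms.ord := Cardinal.isSuccLimit_ord hms.1
  have hmsμ' := ms_lt hmsμ
  obtain ⟨S⟩ := Helper55.CP.scales_exist T
  obtain ⟨e, he⟩ := Helper8.CP.ladder_exists.{u}
  let G := ops T S F e
  obtain ⟨N, hN⟩ := chain_exists T S (mk_Idx_le T hJF) G (Iio ms.ord) (by
    rw [Cardinal.mk_Iio_ordinal, Cardinal.card_ord]
    exact Cardinal.lift_le.2 hmsμ)
  have hcap := cap hN hms hκms' hmsμ (fun q p => ⟨.inr (.inr (.inl (q, p))), fun ξ => rfl⟩)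
  obtain ⟨A, hAa, hAinf, hAc, C, hC, hClim, hfree⟩ := free_exists hN hms hκms hmsμ H
    (fun q p => ⟨.inr (.inr (.inr (.inl (q, p)))), fun ξ => rfl⟩) hcap
  have hcofx : ∀ x : T.P, (xs T N ms x).cof = ms := by
    intro x
    unfold xs
    rw [chi_cof hN hlim hmsμ', hms.cof_ord]
  -- the clubs where the ladders agree with the suprema
  have hagree : ∀ x : T.P, ClubIn {i | e (xs T N ms x) i = chi (N i) (T.c x).ord} ms.ord := by
    intro x
    have hcof := hcofx x
    have hxlim : Order.IsSuccLimit (xs T N ms x) :=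
      Ordinal.one_lt_cof_iff.1 (by rw [hcof]; exact one_lt_aleph0.trans hms0)
    obtain ⟨he1, he2, he3⟩ := he _ hxlim
    rw [hcof] at he3
    refine Helper8.CP.agree hcofms (e (xs T N ms x)) (fun i => chi (N i) (T.c x).ord)
      (fun i j h _ => he1 i j h) (fun i j h hj => chi_strict hN h (hj.trans hmsμ') x)
      (fun i _ hi y hy => he2 i hi y hy) (fun i _ hi y hy => chi_cont hN hi hy) ?_ ?_
    · intro i hi
      refine chi_cont hN hlim ?_
      have := he1 i _ hi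
      rwa [he3] at this
    · intro i hi
      refine he2 _ hlim _ ?_
      rw [he3]
      exact chi_strict hN hi hmsμ' x
  have hAcard : #A ≤ ℵ₀ := hAc.le_aleph0
  have hCI : ClubIn (⋂ x : A, {i | e (xs T N ms x) i = chi (N i) (T.c x).ord}) ms.ord :=
    club_iInter hcofms (hAcard.trans_lt hcofms) _ (fun x => hagree x)
  have hacc := club_acc hcofms (club_inter hcofms hC hCI)
  refine ⟨A, hAa, hAinf, fun x => xs T N ms x, fun x => ⟨?_, hcofx x⟩, ?_⟩
  · exact chi_lt_c hN hmsμ' x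
  intro St hSt
  have hpoint : ∀ x : T.P, ∃ (i : Ordinal.{u}) (K : Set Ordinal.{u}),
      x ∈ A → i ∈ C ∧ i < ms.ord ∧ Order.IsSuccLimit i ∧ chi (N i) (T.c x).ord ∈ St x ∧
      K ⊆ (⋂ x : A, {i | e (xs T N ms x) i = chi (N i) (T.c x).ord}) ∧ K ⊆ Iio i ∧ UnbIn K i ∧
      #K ≤ Cardinal.lift.{u+1} i.cof := by
    intro x
    by_cases hx : x ∈ A
    · obtain ⟨i, hi, hims, hiS⟩ := stat_pull hcofms (fun i => chi (N i) (T.c x).ord)
        (fun i j h hj => chi_strict hN h (hj.trans hmsμ') x)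
        (fun i _ hi y hy => chi_cont hN hi hy)
        (fun i hi => chi_strict hN hi hmsμ' x)
        (fun y hy => chi_cont hN hlim hy) (hSt x hx) hacc
      have hil := hi.2.isSuccLimit hi.1
      obtain ⟨K, h1, h2, h3, h4⟩ := small_block hi.2 hil
      exact ⟨i, K, fun _ => ⟨hC.cl _ hims hi.1 (hi.2.mono inter_subset_left), hims, hil, hiS,
        h1.trans inter_subset_right, h2, h3, h4⟩⟩
    · exact ⟨0, ∅, fun h => absurd h hx⟩
  choose iρ K hiK using hpoint
  let X0 : Set Ordinal.{u} := ⋃ x : A, (fun j => chi (N j) (T.c x).ord) '' K x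
  refine ⟨Clo F X0, fun x => chi (N (iρ x)) (T.c x).ord, Clo_closed, ?_, ?_⟩
  · intro ν hν hJν hfν
    refine mk_Clo_le hν hJν ?_
    refine mk_iUnion_small' hν _ (hAcard.trans hν) fun x => ?_
    refine Cardinal.mk_image_le.trans ?_
    obtain ⟨-, h2, h3, -, -, -, -, h8⟩ := hiK x x.2
    refine h8.trans (Cardinal.lift_le.2 ?_)
    have := hfν x x.2
    rwa [chi_cof hN h3 (h2.trans hmsμ')] at this
  · intro x hx
    obtain ⟨hiC, hims, hilim, hiS, hKE, hKi, hKu, -⟩ := hiK x hx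
    set i := iρ x with hi
    refine ⟨hiS, chi_strict hN hims hmsμ' x, ?_, ?_⟩
    · intro z hz hzx
      set X : Set Ordinal.{u} :=
        Clo G (N i ∪ xs T N ms '' {y | y ∈ A ∧ T.c x < T.c y}) with hX
      obtain ⟨l, hl, hzl⟩ := Clo_finite hz
      have hl' : ∀ w ∈ l, w ∈ X ∨ ∃ y ∈ A, T.c y < T.c x ∧ w < (T.c y).ord := by
        intro w hw
        obtain ⟨y, hy⟩ := mem_iUnion.1 (hl w hw)
        obtain ⟨j, hj, rfl⟩ := hy
        obtain ⟨-, hyms, -, -, hyE, hyi, -, -⟩ := hiK y y.2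
        have hjms : j < ms.ord := lt_trans (hyi hj) hyms
        rcases lt_trichotomy (T.c y) (T.c x) with h | h | h
        · exact Or.inr ⟨y, y.2, h, chi_lt_c hN (hjms.trans hmsμ') _⟩
        · left
          have hyx : (y : T.P) = x := T.inj h
          refine subset_Clo (Or.inl ?_)
          have hj' : j < i := by
            have := hyi hj
            rw [hyx] at this
            exact this
          exact hN.chi j i hj' (hims.trans hmsμ') _
        · left
          have h1 : e (xs T N ms y) j = chi (N j) (T.c y).ord := mem_iInter.1 (hyE hj) y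
          have h2 : G (.inr (.inr (.inr (.inr PUnit.unit)))) [xs T N ms y, j] =
            e (xs T N ms y) j := rfl
          show chi (N j) (T.c y).ord ∈ X
          rw [← h1, ← h2]
          refine Clo_closed _ _ ?_
          intro v hv
          rcases List.mem_cons.1 hv with rfl | hv
          · exact subset_Clo (Or.inr ⟨y, ⟨y.2, h⟩, rfl⟩)
          · rw [List.mem_singleton] at hv
            rw [hv]
            exact subset_Clo (Or.inl (hN.base i hjms))
      obtain ⟨l1, hl1, hl2⟩ := split_list l hl'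
      have hFG : ∀ h : Ordinal.{u}, h ∈ X → h < (T.c x).ord →
          z < h → z < chi (N i) (T.c x).ord := by
        intro h h1 h2 h3
        exact h3.trans (hfree i hiC hims x hx h h1 h2)
      rcases hl2 with hl2 | ⟨y, hy, hyx, hl2⟩
      · have h1 : G (.inr (.inl (x, none))) l1 = chi (Clo F (ls l1)) (T.c x).ord := rfl
        have h2 : chi (Clo F (ls l1)) (T.c x).ord < (T.c x).ord := chi_lt (T.reg x)
          ((mk_Clo_le hμ0 hJF (mk_ls_le hμ0)).trans_lt (Cardinal.lift_lt.2 (T.hμc x)))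
        refine hFG _ (h1 ▸ Clo_closed _ _ hl1) h2 (lt_chi (Clo_mono hl2 hzl) hzx)
      · have h1 : G (.inr (.inl (x, some y))) l1 =
          chi (Clo F (ls l1 ∪ Iio (T.c y).ord)) (T.c x).ord := rfl
        have hy0 : ℵ₀ ≤ T.c y := (T.reg y).1
        have h2 : chi (Clo F (ls l1 ∪ Iio (T.c y).ord)) (T.c x).ord < (T.c x).ord := by
          refine chi_lt (T.reg x) (lt_of_le_of_lt (mk_Clo_le hy0 (hJF.trans (T.hμc y).le) ?_)
            (Cardinal.lift_lt.2 hyx))
          refine (Cardinal.mk_union_le _ _).trans (Cardinal.add_le_of_le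
            (Cardinal.aleph0_le_lift.2 hy0) (mk_ls_le hy0) ?_)
          rw [Cardinal.mk_Iio_ordinal, Cardinal.card_ord]
        refine hFG _ (h1 ▸ Clo_closed _ _ hl1) h2 (lt_chi (Clo_mono hl2 hzl) hzx)
    · intro y hy
      obtain ⟨η, hη, h1⟩ := chi_cont hN hilim hy
      obtain ⟨j, hj, h2, h3⟩ := hKu η hη
      refine ⟨chi (N j) (T.c x).ord, subset_Clo (mem_iUnion.2 ⟨⟨x, hx⟩, j, hj, rfl⟩), ?_, ?_⟩
      · exact h1.trans (chi_strict hN h2 (h3.trans (hims.trans hmsμ')) x)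
      · exact chi_strict hN h3 (hims.trans hmsμ') x

end Helper19.CP
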